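import Pool.Agent.TTC.Stmts

/-!
# Squad TTC, row CUB: good primes give places without triple roots
-/

set_option autoImplicit false

namespace Pool.Agent.TTC.H62

open Polynomial NumberField

theorem qp_monic (a : Fin 4 → ℤ) (c : ℤ) : (qp a c).Monic := by
  unfold qp
  monicity!

theorem qp_deg (a : Fin 4 → ℤ) (c : ℤ) : (qp a c).natDegree = 5 := by
  unfold qp
  compute_degree!

theorem res_eq {R : Type} [CommRing R] [Nontrivial R] (f : R[X]) (hm : f.Monic)
    (hd : f.natDegree = 5) : resultant f (derivative f) 5 4 = discr f := by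
  have h1 := resultant_deriv (f := f) (natDegree_pos_iff_degree_pos.1 (by rw [hd]; norm_num))
  rw [hd, hm.leadingCoeff] at h1
  have h4 : (-1 : R) ^ (5 * (5 - 1) / 2) = 1 := by norm_num
  rw [h4, mul_one, one_mul] at h1
  exact h1

theorem discr_map5 {R S : Type} [CommRing R] [Nontrivial R] [CommRing S] [Nontrivial S]
    (φ : R →+* S) (f : R[X]) (hm : f.Monic) (hd : f.natDegree = 5) :
    discr (f.map φ) = φ (discr f) := by
  rw [← res_eq f hm hd, ← res_eq (f.map φ) (hm.map φ) (by rw [hm.natDegree_map, hd]),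
    derivative_map, resultant_map_map]

theorem deriv_qp (a : Fin 4 → ℤ) (c : ℤ) : derivative (qp a c) = derivative (qp a 0) := by
  unfold qp
  simp

theorem v_int_le (K : Type) [Field K] [NumberField K] (v : FinitePlace K) (n : ℤ) :
    v (n : K) ≤ 1 := by
  have h := FinitePlace.norm_le_one (K := K) v.maximalIdeal (n : 𝓞 K)
  rw [FinitePlace.norm_embedding_eq] at h
  simpa using h

theorem v_int_eq (K : Type) [Field K] [NumberField K] (v : FinitePlace K) (p : ℕ) (hp : p.Prime)
    (hv : v (p : K) < 1) (n : ℤ) (hn : ¬ (p : ℤ) ∣ n) : v (n : K) = 1 := by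
  refine le_antisymm (v_int_le K v n) ?_
  obtain ⟨u, w, h⟩ := (Nat.prime_iff_prime_int.1 hp).coprime_iff_not_dvd.2 hn
  have h1 : ((u : K) * (p : K)) + (w : K) * (n : K) = 1 := by exact_mod_cast congrArg (Int.cast : ℤ → K) h
  have h2 := FinitePlace.add_le v ((u : K) * (p : K)) ((w : K) * (n : K))
  rw [h1, map_one, map_mul, map_mul] at h2
  rcases le_max_iff.1 h2 with h3 | h3
  · exfalso
    have : v (u : K) * v (p : K) ≤ 1 * v (p : K) :=
      mul_le_mul_of_nonneg_right (v_int_le K v u) (apply_nonneg v _)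
    linarith
  · have : v (w : K) * v (n : K) ≤ 1 * v (n : K) :=
      mul_le_mul_of_nonneg_right (v_int_le K v w) (apply_nonneg v _)
    linarith

theorem cub : CubStmt := by
  intro K _ _ v a c p hp hv hw
  set r : ℤ := resultant (derivative (qp a 0)) (derivative (derivative (qp a 0))) 4 3 with hr
  have hwr : wr a = 2 * r := rfl
  have h2 : v ((2 : ℤ) : K) = 1 := by
    refine v_int_eq K v p hp hv 2 fun h => hw ?_
    rw [hwr]
    exact h.mul_right r
  have hvr : v (r : K) = 1 := by
    refine v_int_eq K v p hp hv r fun h => hw ?_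
    rw [hwr]
    exact h.mul_left 2
  have hr0 : (r : K) ≠ 0 := by
    intro h
    rw [h, map_zero] at hvr
    exact zero_ne_one hvr
  have hd1 : (derivative (qp a 0)).natDegree ≤ 4 := by
    refine (natDegree_derivative_le _).trans ?_
    rw [qp_deg]
  have hd2 : (derivative (derivative (qp a 0))).natDegree ≤ 3 := by
    refine (natDegree_derivative_le _).trans ?_
    omega
  obtain ⟨P, Q, -, -, hPQ⟩ := exists_mul_add_mul_eq_C_resultant (m := 4) (n := 3)
    (derivative (qp a 0)) (derivative (derivative (qp a 0))) hd1 hd2 (by simp)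
  rw [← hr] at hPQ
  have hK := congrArg (Polynomial.map (Int.castRingHom K)) hPQ
  rw [Polynomial.map_add, Polynomial.map_mul, Polynomial.map_mul, Polynomial.map_C] at hK
  have hcf : ∀ (f : ℤ[X]) (n : ℕ), v ((f.map (Int.castRingHom K)).coeff n) ≤ 1 := by
    intro f n
    rw [coeff_map]
    exact v_int_le K v _
  have hcr : ∀ (f : ℤ[X]) (n : ℕ), v ((C (r : K)⁻¹ * f.map (Int.castRingHom K)).coeff n) ≤ 1 := by
    intro f n
    rw [coeff_C_mul, map_mul, map_inv₀, hvr, inv_one, one_mul]
    exact hcf f n
  refine ⟨⟨?_, hcf _, 0, C (r : K)⁻¹ * P.map (Int.castRingHom K),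
    C (r : K)⁻¹ * Q.map (Int.castRingHom K), fun n => ⟨?_, hcr P n, hcr Q n⟩, fun n => ?_⟩, ?_⟩
  · have : (2 : K) = ((2 : ℤ) : K) := by norm_num
    rw [this]
    exact h2
  · rw [coeff_zero]
    have : v (0 : K) ≤ 1 := by rw [map_zero]; exact zero_le_one
    exact this
  · have h0 : (0 * (qp a c).map (Int.castRingHom K) + C (r : K)⁻¹ * P.map (Int.castRingHom K) *
        derivative ((qp a c).map (Int.castRingHom K)) + C (r : K)⁻¹ * Q.map (Int.castRingHom K) *
        derivative (derivative ((qp a c).map (Int.castRingHom K))) - 1 : K[X]) = 0 := by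
      rw [derivative_map, derivative_map, deriv_qp]
      have h3 : (0 * (qp a c).map (Int.castRingHom K) + C (r : K)⁻¹ * P.map (Int.castRingHom K) *
          (derivative (qp a 0)).map (Int.castRingHom K) +
          C (r : K)⁻¹ * Q.map (Int.castRingHom K) *
          (derivative (derivative (qp a 0))).map (Int.castRingHom K) - 1 : K[X])
          = C (r : K)⁻¹ * ((derivative (qp a 0)).map (Int.castRingHom K) *
            P.map (Int.castRingHom K) +
            (derivative (derivative (qp a 0))).map (Int.castRingHom K) *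
            Q.map (Int.castRingHom K)) - 1 := by ring
      rw [h3, hK, eq_intCast, ← C_mul, inv_mul_cancel₀ hr0, C_1, sub_self]
    rw [h0, coeff_zero]
    have : v (0 : K) < 1 := by rw [map_zero]; exact zero_lt_one
    exact this
  · rintro ⟨m, hm⟩
    rw [discr_map5 _ _ (qp_monic a c) (qp_deg a c), hm, eq_intCast, Int.cast_mul, map_mul,
      Int.cast_natCast]
    have : v (p : K) * v (m : K) ≤ v (p : K) * 1 :=
      mul_le_mul_of_nonneg_left (v_int_le K v m) (apply_nonneg v _)
    linarith

end Pool.Agent.TTC.H62
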