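import Pool.Agent.TTC.StmtsC

/-!
# Squad TTC, row FAC: a factor of `D` coprime to `E`
-/

set_option autoImplicit false

namespace Pool.Agent.TTC.H62

open Polynomial

theorem mono_pow (H : ℕ) (hH : 1 ≤ H) (c e A' : ℕ) (hc : c ≤ A') (he : e ≤ A') :
    (c : ℤ) * (H : ℤ) ^ e ≤ (A' : ℤ) * (H : ℤ) ^ A' := by
  have h1 : (1 : ℤ) ≤ H := by exact_mod_cast hH
  have h2 : (H : ℤ) ^ e ≤ (H : ℤ) ^ A' := pow_le_pow_right₀ h1 he
  have h3 : (c : ℤ) ≤ A' := by exact_mod_cast hc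
  exact mul_le_mul h3 h2 (by positivity) (by positivity)

theorem exists_factor (D : ℤ[X]) (t₀ : ℂ) (hD : D ≠ 0) (h0 : aeval t₀ D = 0) :
    ∃ φ : ℤ[X], φ ∣ D ∧ Irreducible φ ∧ aeval t₀ φ = 0 := by
  obtain ⟨f, hf, hfD⟩ := WfDvdMonoid.exists_factors D hD
  obtain ⟨u, hu⟩ := hfD
  have h1 : aeval t₀ (f.prod) * aeval t₀ (u : ℤ[X]) = 0 := by
    rw [← map_mul, hu, h0]
  have h2 : aeval t₀ (u : ℤ[X]) ≠ 0 := (u.isUnit.map (aeval t₀)).ne_zero
  have h3 : aeval t₀ (f.prod) = 0 := (mul_eq_zero.1 h1).resolve_right h2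
  rw [map_multiset_prod, Multiset.prod_eq_zero_iff, Multiset.mem_map] at h3
  obtain ⟨φ, hφ, hφ0⟩ := h3
  refine ⟨φ, ?_, hf φ hφ, hφ0⟩
  rw [← hu]
  exact (Multiset.dvd_prod hφ).mul_right _

theorem coprime_rat (φ E : ℤ[X]) (t₀ : ℂ) (hφ : Irreducible φ) (hd : φ.natDegree ≠ 0)
    (h0 : aeval t₀ φ = 0) (hE : aeval t₀ E ≠ 0) :
    IsCoprime (φ.map (Int.castRingHom ℚ)) (E.map (Int.castRingHom ℚ)) := by
  have hp : φ.IsPrimitive := hφ.isPrimitive hd
  have hi := (IsPrimitive.Int.irreducible_iff_irreducible_map_cast hp).1 hφ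
  rw [hi.coprime_iff_not_dvd]
  rintro ⟨q, hq⟩
  apply hE
  have h1 : ∀ P : ℤ[X], aeval t₀ (P.map (Int.castRingHom ℚ)) = aeval t₀ P := fun P =>
    aeval_map_algebraMap ℚ t₀ P
  rw [← h1, hq, map_mul, h1, h0, zero_mul]

theorem res_ne (φ E : ℤ[X])
    (h : IsCoprime (φ.map (Int.castRingHom ℚ)) (E.map (Int.castRingHom ℚ))) :
    resultant φ E φ.natDegree E.natDegree ≠ 0 := by
  have h1 := resultant_ne_zero _ _ h
  have hinj : Function.Injective (Int.castRingHom ℚ) := Int.cast_injective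
  rw [natDegree_map_eq_of_injective hinj, natDegree_map_eq_of_injective hinj,
    resultant_map_map] at h1
  intro h0
  rw [h0, map_zero] at h1
  exact h1 rfl

theorem res_le (f g : ℤ[X]) (m n : ℕ) (M : ℤ) (hM : 0 ≤ M) (hf : ∀ i, |f.coeff i| ≤ M)
    (hg : ∀ i, |g.coeff i| ≤ M) : |resultant f g m n| ≤ (m + n).factorial * M ^ (m + n) := by
  have h := Matrix.det_le (A := sylvester f g m n) (abv := AbsoluteValue.abs) (x := M) (by
    intro i j
    induction j using Fin.addCases <;> simp only [sylvester, Matrix.of_apply, Fin.addCases_left,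
      Fin.addCases_right, AbsoluteValue.abs_apply] <;> split_ifs
    · exact hg _
    · simpa using hM
    · exact hf _
    · simpa using hM)
  rw [Fintype.card_fin, nsmul_eq_mul, AbsoluteValue.abs_apply] at h
  exact h

theorem mahler_le (D : ℤ[X]) (A : ℕ) (M : ℤ) (hd : D.natDegree ≤ A)
    (hM : ∀ n, |D.coeff n| ≤ M) :
    (D.map (Int.castRingHom ℂ)).mahlerMeasure ≤ (A + 1) * (M : ℝ) := by
  refine (mahlerMeasure_le_sum_norm_coeff _).trans ?_
  rw [sum_over_range' _ (fun _ => norm_zero) (A + 1)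
    (lt_of_le_of_lt natDegree_map_le (by omega))]
  refine (Finset.sum_le_card_nsmul _ _ (M : ℝ) ?_).trans ?_
  · intro i _
    rw [coeff_map, eq_intCast, Complex.norm_intCast]
    exact_mod_cast hM i
  · rw [Finset.card_range, nsmul_eq_mul]
    push_cast
    exact le_refl _

theorem factor_coeff (φ D : ℤ[X]) (A : ℕ) (M : ℤ) (hd : D.natDegree ≤ A) (hM0 : 0 ≤ M)
    (hM : ∀ n, |D.coeff n| ≤ M) (hφ : φ ∣ D) (hD : D ≠ 0) (n : ℕ) :
    |φ.coeff n| ≤ 2 ^ A * ((A + 1) * M) := by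
  obtain ⟨h, rfl⟩ := hφ
  have hh : h ≠ 0 := right_ne_zero_of_mul hD
  have hφ0 : φ ≠ 0 := left_ne_zero_of_mul hD
  have hinj : Function.Injective (Int.castRingHom ℂ) := Int.cast_injective
  have h1 : 1 ≤ ‖(h.map (Int.castRingHom ℂ)).leadingCoeff‖ := by
    rw [leadingCoeff_map_of_injective hinj, eq_intCast, Complex.norm_intCast]
    have : 1 ≤ |h.leadingCoeff| := Int.one_le_abs (leadingCoeff_ne_zero.2 hh)
    exact_mod_cast this
  have h2 := norm_coeff_le_choose_mul_mahlerMeasure_of_one_le_mahlerMeasure n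
    (φ.map (Int.castRingHom ℂ)) (h.map (Int.castRingHom ℂ))
    (one_le_mahlerMeasure_of_one_le_norm_leadingCoeff h1)
  rw [← Polynomial.map_mul, coeff_map, eq_intCast, Complex.norm_intCast,
    natDegree_map_eq_of_injective hinj] at h2
  have hdφ : φ.natDegree ≤ A := by
    refine le_trans ?_ hd
    rw [natDegree_mul hφ0 hh]
    omega
  have h3 : ((φ.natDegree.choose n : ℕ) : ℝ) ≤ 2 ^ A := by
    have h4 : φ.natDegree.choose n ≤ 2 ^ A :=
      (Nat.choose_le_two_pow _ _).trans (Nat.pow_le_pow_right (by norm_num) hdφ)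
    exact_mod_cast h4
  have h4 : (|φ.coeff n| : ℝ) ≤ 2 ^ A * ((A + 1) * (M : ℝ)) := by
    refine h2.trans ?_
    refine mul_le_mul h3 (mahler_le _ A M hd hM) (mahlerMeasure_nonneg _) (by positivity)
  exact_mod_cast h4

theorem fac : FacStmt := by
  intro A
  set c1 : ℕ := 2 ^ A * ((A + 1) * A) with hc1
  set c2 : ℕ := (2 * A).factorial * (c1 + 1) ^ (2 * A) with hc2
  refine ⟨A + c1 + c2 + A * (2 * A), ?_⟩
  rintro H D E t₀ hH ⟨hDd, hDc⟩ ⟨hEd, hEc⟩ hD h0 hE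
  have hH1 : (1 : ℤ) ≤ H := by exact_mod_cast hH
  obtain ⟨φ, hφD, hφi, hφ0⟩ := exists_factor D t₀ hD h0
  have hdeg : φ.natDegree ≠ 0 := by
    intro hd
    rw [natDegree_eq_zero] at hd
    obtain ⟨n, rfl⟩ := hd
    rw [aeval_C] at hφ0
    have : n = 0 := by
      have h1 : ((n : ℤ) : ℂ) = 0 := by simpa using hφ0
      exact_mod_cast h1
    rw [this, C_0] at hφi
    exact not_irreducible_zero hφi
  have hM0 : (0 : ℤ) ≤ A * (H : ℤ) ^ A := by positivity
  have hφc : ∀ n, |φ.coeff n| ≤ (c1 : ℤ) * (H : ℤ) ^ A := by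
    intro n
    refine (factor_coeff φ D A _ hDd hM0 hDc hφD hD n).trans (le_of_eq ?_)
    rw [hc1]
    push_cast
    ring
  have hφd : φ.natDegree ≤ A := (natDegree_le_of_dvd hφD hD).trans hDd
  have hcop := coprime_rat φ E t₀ hφi hdeg hφ0 hE
  have hr := res_ne φ E hcop
  set r := resultant φ E φ.natDegree E.natDegree with hrdef
  obtain ⟨P, Q, -, -, hPQ⟩ := exists_mul_add_mul_eq_C_resultant (m := φ.natDegree)
    (n := E.natDegree) φ E le_rfl le_rfl (Or.inl hdeg)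
  rw [← hrdef] at hPQ
  refine ⟨φ, r.natAbs, hφD, Nat.one_le_iff_ne_zero.2 hdeg, ⟨by omega, fun n => ?_⟩,
    Int.natAbs_pos.2 hr, ?_, ?_⟩
  · exact (hφc n).trans (mono_pow H hH c1 A _ (by omega) (by omega))
  · rw [Int.natCast_natAbs]
    have hAc : A ≤ c1 := by
      rw [hc1]
      calc A = 1 * (1 * A) := by ring
        _ ≤ 2 ^ A * ((A + 1) * A) := by
          gcongr
          · exact Nat.one_le_two_pow
          · omega
    have hM1 : (1 : ℤ) ≤ ((c1 + 1 : ℕ) : ℤ) * (H : ℤ) ^ A := by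
      have h1 : (1 : ℤ) ≤ (H : ℤ) ^ A := one_le_pow₀ hH1
      have h2 : (1 : ℤ) ≤ ((c1 + 1 : ℕ) : ℤ) := by push_cast; omega
      nlinarith
    have h1 := res_le φ E φ.natDegree E.natDegree (((c1 + 1 : ℕ) : ℤ) * (H : ℤ) ^ A)
      (by positivity)
      (fun i => (hφc i).trans (by
        have : (c1 : ℤ) ≤ ((c1 + 1 : ℕ) : ℤ) := by push_cast; omega
        exact mul_le_mul_of_nonneg_right this (by positivity)))
      (fun i => (hEc i).trans (by
        have : (A : ℤ) ≤ ((c1 + 1 : ℕ) : ℤ) := by push_cast; omega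
        exact mul_le_mul_of_nonneg_right this (by positivity)))
    refine h1.trans ?_
    have hmn : φ.natDegree + E.natDegree ≤ 2 * A := by omega
    have h2 : ((φ.natDegree + E.natDegree).factorial : ℤ) ≤ ((2 * A).factorial : ℕ) := by
      exact_mod_cast Nat.factorial_le hmn
    have h3 : (((c1 + 1 : ℕ) : ℤ) * (H : ℤ) ^ A) ^ (φ.natDegree + E.natDegree)
        ≤ (((c1 + 1 : ℕ) : ℤ) * (H : ℤ) ^ A) ^ (2 * A) := pow_le_pow_right₀ hM1 hmn
    refine (mul_le_mul h2 h3 (by positivity) (by positivity)).trans ?_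
    have h4 : (((2 * A).factorial : ℕ) : ℤ) * (((c1 + 1 : ℕ) : ℤ) * (H : ℤ) ^ A) ^ (2 * A)
        = (c2 : ℤ) * (H : ℤ) ^ (A * (2 * A)) := by
      rw [hc2, mul_pow, ← pow_mul]
      push_cast
      ring
    rw [h4]
    exact mono_pow H hH c2 (A * (2 * A)) _ (by omega) (by omega)
  · intro t p hp h1 h2
    rw [← Int.natCast_dvd]
    have h3 := congrArg (eval t) hPQ
    rw [eval_add, eval_mul, eval_mul, eval_C] at h3
    rw [← h3]
    exact dvd_add (h1.mul_right _) (h2.mul_right _)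

end Pool.Agent.TTC.H62
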